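import Pool.Agent.Y609.WS.Fin
import Pool.Agent.Y609.WS.Sob

/-!
# Weakly 1-sequentially hypercyclic operators which are not hypercyclic: on which spaces?

Real or complex scalars. Let `X` be a separable Banach space. There is a bounded operator on `X`
which is weakly 1-sequentially hypercyclic but not hypercyclic in the following cases:

* `X` contains a (closed) subspace isomorphic to `c_0`;
* `X` has a complemented subspace isomorphic to `ℓ_p` for some `1 < p < ∞`; for instance `X` may be
  the infinite dimensional separable Hilbert space, or `ℓ_p`, or `L_p (0, 1)`;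
* `X` has a complemented subspace isomorphic to the `ℓ_p`-sum, `1 ≤ p < ∞`, or to the `c_0`-sum of
  infinitely many copies of a Banach space `H` without the Schur property (there is a weakly
  convergent sequence in `H` which does not converge in norm); for instance `X = L_1 (0, 1)`.

If `X` has the Schur property then there is no such operator on `X`. In particular, if `X` is
isomorphic to the `ℓ_p`-sum or the `c_0`-sum of infinitely many copies of itself (this is so for
`ℓ_p`, `c_0`, `L_p (0, 1)` and `C [0, 1]`) then there is such an operator on `X` if and only if `X`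
does not have the Schur property.

Proof. In the first case there is a complemented subspace isomorphic to `c_0` by Sobczyk's theorem
(proved in `Pool.Agent.Y609.WS.Sob`), and in the first two cases there is one isomorphic to a sum as
in the third case. So let `X = Z ⊕ H ⊕ H ⊕ …`. The operator is a weighted backward shift: it maps
`(z, x 0, x 1, …)` to `(R (x 0), w 0 (x 1), w 1 (x 2), …)`, where `R : H → Z` is a compact operator
with dense range and the `w n` are invertible operators on `H`. There are bounded functionals `f k`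
and a bounded weakly null sequence `z k` in `H`, and a vector `y` in `H`, with `f k (z k) = 1` and
`f k y = 1` for all `k`. The product `w 0 ⋯ w (n - 1)`, for `n` in the block from `3 ^ k` to
`3 ^ (k + 1)`, fixes `z k` and multiplies the vectors of the kernel of `f k` with `L ^ m`, where `m`
is the distance of `n` from the ends of the block, and `L` is large. So the value of `f k` at the
coordinate `0` of the `n`-th vector of the orbit of `x` is at most a constant times the norm of `x`,
for the `k` belonging to `n`: the multiple `C y` at the coordinate `0` has a positive distance from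
the orbit if `C` is large. At the time `n = 2 * 3 ^ k` we can reach every vector of a dense set, up
to multiples of `z k` in the coordinates, which are bounded and weakly null.
-/

set_option autoImplicit false

open Filter Topology
open scoped ENNReal ZeroAtInfty

namespace Pool.Agent.Results.MP_33c00b_an.NonSchurSpaces

section defs

variable (𝕜 : Type) [RCLike 𝕜] {X : Type} [NormedAddCommGroup X] [NormedSpace 𝕜 X]

/-- `T` is hypercyclic: some orbit is dense in the norm topology. -/
def IsHypercyclic (T : X →L[𝕜] X) : Prop :=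
  ∃ x : X, Dense (Set.range fun n : ℕ => (T ^ n) x)

/-- The sequence `u` converges weakly to `y`. -/
def WeaklyTendsto (u : ℕ → X) (y : X) : Prop :=
  ∀ φ : X →L[𝕜] 𝕜, Tendsto (fun k => φ (u k)) atTop (𝓝 (φ y))

/-- `T` is weakly 1-sequentially hypercyclic: every vector is the weak limit of a sequence in
the orbit of the same vector `x`. -/
def IsWeaklyOneSequentiallyHypercyclic (T : X →L[𝕜] X) : Prop :=
  ∃ x : X, ∀ y : X, ∃ n : ℕ → ℕ, WeaklyTendsto 𝕜 (fun k => (T ^ n k) x) y

/-- `Y` is isomorphic to a complemented subspace of `X`. -/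
def ComplementedIn (Y X : Type) [NormedAddCommGroup Y] [NormedSpace 𝕜 Y] [NormedAddCommGroup X]
    [NormedSpace 𝕜 X] : Prop :=
  ∃ (i : Y →L[𝕜] X) (r : X →L[𝕜] Y), ∀ y, r (i y) = y

/-- The Schur property. -/
def Schur (X : Type) [NormedAddCommGroup X] [NormedSpace 𝕜 X] : Prop :=
  ∀ (u : ℕ → X) (y : X), WeaklyTendsto 𝕜 u y → Tendsto u atTop (𝓝 y)

/-- There is a weakly 1-sequentially hypercyclic operator which is not hypercyclic. -/
def HasOperator (X : Type) [NormedAddCommGroup X] [NormedSpace 𝕜 X] : Prop :=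
  ∃ T : X →L[𝕜] X, IsWeaklyOneSequentiallyHypercyclic 𝕜 T ∧ ¬ IsHypercyclic 𝕜 T

end defs

lemma of_found {𝕜 : Type} [RCLike 𝕜] {X : Type} [NormedAddCommGroup X] [NormedSpace 𝕜 X]
    (h : Pool.Agent.Y609.WS.Found 𝕜 X) : HasOperator 𝕜 X := by
  obtain ⟨T, ⟨x, hx⟩, hn⟩ := h
  refine ⟨T, ⟨x, fun y => ?_⟩, fun ⟨x', hx'⟩ => hn x' hx'⟩
  obtain ⟨n, -, hn'⟩ := hx y
  exact ⟨n, hn'⟩

/-- `Y` is isomorphic to a closed subspace of `X`. -/
def EmbedsIn (𝕜 : Type) [RCLike 𝕜] (Y X : Type) [NormedAddCommGroup Y] [NormedSpace 𝕜 Y]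
    [NormedAddCommGroup X] [NormedSpace 𝕜 X] : Prop :=
  ∃ (i : Y →L[𝕜] X) (δ : ℝ), 0 < δ ∧ ∀ y, δ * ‖y‖ ≤ ‖i y‖

/-- Let `X` be a separable Banach space. There is a weakly 1-sequentially hypercyclic operator on
`X` which is not hypercyclic if `X` has a complemented subspace isomorphic to an `ℓ_p`-sum or
`c_0`-sum of infinitely many copies of a Banach space without the Schur property, or to `ℓ_p` for
some `1 < p < ∞`, or if `X` contains a copy of `c_0`. There is none if `X` has the Schur property.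
If `X` is isomorphic to such a sum of copies of itself then there is one if and only if `X` does not
have the Schur property. -/
theorem result (𝕜 : Type) [RCLike 𝕜] (X : Type) [NormedAddCommGroup X] [NormedSpace 𝕜 X]
    [CompleteSpace X] [TopologicalSpace.SeparableSpace X] :
    ((∃ (H : Type) (_ : NormedAddCommGroup H) (_ : NormedSpace 𝕜 H) (_ : CompleteSpace H),
        ¬ Schur 𝕜 H ∧
        ((∃ (p : ℝ≥0∞) (_ : Fact (1 ≤ p)), p ≠ ∞ ∧
            ComplementedIn 𝕜 (lp (fun _ : ℕ => H) p) X) ∨ ComplementedIn 𝕜 C₀(ℕ, H) X)) →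
      HasOperator 𝕜 X) ∧
    ((∃ (p : ℝ≥0∞) (_ : Fact (1 ≤ p)), 1 < p ∧ p ≠ ∞ ∧
        ComplementedIn 𝕜 (lp (fun _ : ℕ => 𝕜) p) X) → HasOperator 𝕜 X) ∧
    (EmbedsIn 𝕜 C₀(ℕ, 𝕜) X → HasOperator 𝕜 X) ∧
    (Schur 𝕜 X → ∀ T : X →L[𝕜] X, IsWeaklyOneSequentiallyHypercyclic 𝕜 T →
      IsHypercyclic 𝕜 T) ∧
    (((∃ (p : ℝ≥0∞) (_ : Fact (1 ≤ p)), p ≠ ∞ ∧ Nonempty (X ≃L[𝕜] lp (fun _ : ℕ => X) p)) ∨
        Nonempty (X ≃L[𝕜] C₀(ℕ, X))) →
      (HasOperator 𝕜 X ↔ ¬ Schur 𝕜 X)) := by
  have h1 : (∃ (H : Type) (_ : NormedAddCommGroup H) (_ : NormedSpace 𝕜 H) (_ : CompleteSpace H),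
        ¬ Schur 𝕜 H ∧
        ((∃ (p : ℝ≥0∞) (_ : Fact (1 ≤ p)), p ≠ ∞ ∧
            ComplementedIn 𝕜 (lp (fun _ : ℕ => H) p) X) ∨ ComplementedIn 𝕜 C₀(ℕ, H) X)) →
      HasOperator 𝕜 X := by
    rintro ⟨H, _, _, _, hH, h⟩
    unfold Schur at hH
    push Not at hH
    obtain ⟨u, v, hw, hn⟩ := hH
    rcases h with ⟨p, hp1, hp, hc⟩ | hc
    · exact of_found (Pool.Agent.Y609.WS.found_of_sum (Pool.Agent.Y609.WS.lpSum hp) hc u v hw hn)
    · exact of_found (Pool.Agent.Y609.WS.found_of_sum (Pool.Agent.Y609.WS.c0Sum 𝕜 H) hc u v hw hn)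
  have h4 : Schur 𝕜 X → ∀ T : X →L[𝕜] X, IsWeaklyOneSequentiallyHypercyclic 𝕜 T →
      IsHypercyclic 𝕜 T := by
    rintro hS T ⟨x, hx⟩
    refine ⟨x, fun y => ?_⟩
    obtain ⟨n, hn⟩ := hx y
    exact mem_closure_of_tendsto (hS _ y hn) (Eventually.of_forall fun k => ⟨n k, rfl⟩)
  refine ⟨h1, ?_, ?_, h4, fun h => ⟨?_, fun hS => ?_⟩⟩
  · rintro ⟨p, hp1, h1, hp, hc⟩
    exact of_found (Pool.Agent.Y609.WS.found_lp h1 hp hc)
  · rintro ⟨i, δ, hδ, hi⟩
    exact of_found (Pool.Agent.Y609.WS.found_c0 (Pool.Agent.Y609.WS.sobczyk i hδ hi))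
  · rintro ⟨T, hT, hn⟩ hS
    exact hn (h4 hS T hT)
  · exact h1 ⟨X, inferInstance, inferInstance, inferInstance, hS, by
      rcases h with ⟨p, hp1, hp, ⟨e⟩⟩ | h'
      · exact Or.inl ⟨p, hp1, hp, e.symm, e, fun y => e.apply_symm_apply y⟩
      · obtain ⟨e⟩ := h'
        exact Or.inr ⟨e.symm, e, fun y => e.apply_symm_apply y⟩⟩

end Pool.Agent.Results.MP_33c00b_an.NonSchurSpaces
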